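import Pool.Agent.N997.TF.Fin2
import Pool.Agent.N997.TF.Dbl4

/-!
# The Tate conjecture for Jacobians of Fermat and Artin-Schreier curves, in all characteristics

Let `m ≥ 2`, let `p` be a prime number that does not divide `m`, and let `C` be the curve
`y ^ p - y = x ^ m` over a finite field of characteristic `p` that contains the `m`-th roots of unity.
Its first cohomology is the sum of one dimensional pieces `V (a)`, for the nonzero residues `a` modulo
`m` (with multiplicity `p - 1`), on which the Frobenius endomorphism acts by Gauss sums. By the
theorem of Stickelberger the Tate classes on the powers of `C`, and on the abelian varieties all of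
whose simple factors over the algebraic closure are factors of the Jacobian of `C`, are spanned by the
products of eigenvectors `⨂ V (a)`, `a ∈ s`, for the multisets `s` of an even number of nonzero
residues with `IsTate m p s`. If `a + b + c = 0` then `V (a) ⊗ V (b) ⊗ V (c)` is, by an algebraic
correspondence, a piece of the first cohomology of the Fermat curve `x ^ m + y ^ m = 1`.

The following Tate classes are known to be algebraic (`Base m p`).

* Tate unions of two curve pieces: the theorem of Tate, for products of two curves, each of them
  `C` or the Fermat curve.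
* The Tate classes that correspond to the product formulas of Hasse and Davenport,
  `V (a) ⊗ V (a + m / q) ⊗ ... ⊗ V (a + (q - 1) m / q) ≅ V (q a) (- (q - 1) / 2)` for the odd prime
  divisors `q` of `m`, and `V (a) ⊗ V (a + m / 2) ≅ V (2 a) ⊗ V (m / 2)` for even `m`: they come from
  algebraic cycles on Fermat varieties in characteristic zero (Shioda, Aoki), which specialise.

So the Tate class that belongs to `s` is algebraic if `cls s = ∑ [a]`, `a ∈ s`, is in the group
generated by the relations (`Relations m p`). We prove that this is always the case, for every `p`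
prime to `m`, if `m ≤ 67` is not one of the numbers 33, 35, 44, 51, 52, 55, 56, 57, 65, and if `m` is a
power of an odd prime number or twice such a power.
-/

namespace Pool.Agent.Results.MP_ee618e_ag.FermatAllCharacteristics

open Pool.Agent.N997.TF

theorem result (m p : ℕ) (hp : p.Coprime m)
    (hm : (2 ≤ m ∧ m ≤ 67 ∧ m ∉ ({33, 35, 44, 51, 52, 55, 56, 57, 65} : Finset ℕ)) ∨
      ∃ q k : ℕ, q.Prime ∧ q ≠ 2 ∧ (m = q ^ (k + 1) ∨ m = 2 * q ^ (k + 1)))
    (s : Multiset (ZMod m)) (h0 : (0 : ZMod m) ∉ s) (he : Even (Multiset.card s))
    (hT : IsTate m (p : ZMod m) s) : cls s ∈ Relations m (p : ZMod m) := by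
  have hpow : (∃ q k : ℕ, q.Prime ∧ q ≠ 2 ∧ m = q ^ (k + 1)) →
      cls s ∈ Relations m (p : ZMod m) := by
    rintro ⟨q, k, hq, hq2, hmq⟩
    haveI : NeZero m := ⟨by rw [hmq]; exact pow_ne_zero _ hq.ne_zero⟩
    have h := full_prime_pow hq hq2 hmq (ZMod.unitOfCoprime p hp) (s := s) h0 he
      (by rwa [ZMod.coe_unitOfCoprime])
    rwa [ZMod.coe_unitOfCoprime] at h
  rcases hm with ⟨h2, h67, hn⟩ | ⟨q, k, hq, hq2, h | h⟩
  · rcases split_67 m h2 h67 hn with h | h | h
    · exact full_32 m p h2 h hp s h0 he hT
    · exact full_degs m p h hp s h0 he hT
    · exact hpow h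
  · exact hpow ⟨q, k, hq, hq2, h⟩
  · subst h
    exact full_two_prime_pow hq hq2 hp h0 he hT

end Pool.Agent.Results.MP_ee618e_ag.FermatAllCharacteristics
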