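import Pool.Agent.N90.MN.Final2

/-!
# The Tate conjecture for powers of abelian varieties over finite fields: exotic classes can appear
# exponentially late

For arbitrarily large `s` (and in arbitrarily large characteristics) there are absolutely simple
ordinary abelian varieties `A` of dimension `g = s ^ 2` over finite fields such that all Tate classes
of codimension `d` on `A ^ r` are generated by divisors if `r` or `d` is smaller than
`3 * 2 ^ (s - 6) / s`, but there are other Tate classes on `A ^ r` for all `r ≥ 2 ^ (s - 6)`.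
-/

set_option autoImplicit false

namespace Pool.Agent.Results.MP_ee618e_ag.LateExoticPowers

open NumberField Module Pool.Agent.N90.TD

/-- **Late exotic powers.** For arbitrarily large `s` and `p` there are absolutely simple ordinary
abelian varieties `A` of dimension `g = s ^ 2` over finite fields of characteristic `p` such that all
Tate classes of codimension `d` on `A ^ r`, over all finite extensions, are linear combinations of
products of divisor classes if `min (r, d) < 3 * 2 ^ (s - 6) / s` (for all `d` if `r` is small,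
and on all powers if `d` is small), but for all `r ≥ 2 ^ (s - 6)` not all Tate classes
on `A ^ r` are. -/
theorem result (G B : ℕ) :
    ∃ (p : ℕ) (_ : Fact p.Prime) (a : ℕ) (E : Type) (_ : Field E) (_ : NumberField E)
      (_ : IsCMField E) (π : E) (s : ℕ), B < p ∧ G ≤ s ∧ finrank ℚ E = 2 * s ^ 2 ∧
      IsOrdinaryFamily p a (fun _ : Unit => E) (fun _ => π) ∧
      (∀ (K : Type) [Field K] [CharZero K] (r d : ℕ), s * min r d < 3 * 2 ^ (s - 6) →
        TateGeneratedIn (frob K (E := fun _ : Unit => E) (fun _ => π) (fun _ : Fin r => ()))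
          (p ^ a) d) ∧
      (∀ (K : Type) [Field K] [CharZero K] (r : ℕ), 2 ^ (s - 6) ≤ r →
        ¬ TateGenerated (frob K (E := fun _ : Unit => E) (fun _ => π) (fun _ : Fin r => ()))
          (p ^ a)) := by
  obtain ⟨m, hm2, hmG⟩ : ∃ m, 2 ≤ m ∧ G ≤ 2 ^ m := by
    refine ⟨max 2 G, le_max_left _ _, ?_⟩
    exact Nat.lt_two_pow_self.le.trans (Nat.pow_le_pow_right (by norm_num) (le_max_right _ _))
  obtain ⟨p, hp, a, E, i1, i2, i3, π, hB, hfam, hfin, hgen, hnot⟩ :=
    Pool.Agent.N90.MN.lower2 (k := 2) hm2 le_rfl B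
  have h4 : 4 ≤ 2 ^ m := by
    calc 4 = 2 ^ 2 := by norm_num
      _ ≤ 2 ^ m := Nat.pow_le_pow_right (by norm_num) hm2
  have h8 : (3 ^ 2 - 1) ^ (2 ^ m - 2) = 2 ^ (3 * 2 ^ m - 6) := by
    have h1 : 3 * 2 ^ m - 6 = 3 * (2 ^ m - 2) := by omega
    rw [h1, pow_mul]
    norm_num
  rw [h8] at hgen hnot
  refine ⟨p, hp, a, E, i1, i2, i3, π, 3 * 2 ^ m, hB, by omega, ?_, hfam, ?_, hnot⟩
  · rw [hfin]
    have h9 : (4 : ℕ) ^ m = (2 ^ m) ^ 2 := by
      rw [← pow_mul, mul_comm, pow_mul]
      norm_num
    rw [h9]
    ring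
  · intro K _ _ r d hr
    refine hgen K r d ?_
    rw [mul_assoc] at hr
    omega

end Pool.Agent.Results.MP_ee618e_ag.LateExoticPowers
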