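import Mathlib
import Pool.Agent.N198.GT.Gen

/-!
# Tate classes of small codimension on powers of Jacobians of Galois covers over finite fields

Let `A` be an abelian variety over the field with `q = p ^ a` elements, and `V` its first `ℓ`-adic
homology, with coefficients extended to the complex numbers; the Frobenius endomorphism `F` acts on `V`
semisimply (Weil). The Tate classes on the powers `A ^ n`, over all finite extensions of the ground
field, are linear combinations of multilinear forms on `V` which are multiplied by `Q ^ j` by some power
`F ^ N`, `Q = q ^ N` (`IsTateForm`; `2 j` is the number of the variables and `j` the codimension).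

The eigenvalues of `F` are arranged in blocks, with a duality such that the products of dual numbers
are `q`. We assume

* any two numbers of one block are exchanged by an automorphism of `ℂ` fixing all other numbers of
  all blocks, except for the duals of the two, and their quotient is not a root of unity (`Large`;
  nothing is assumed about the blocks with one element);
* every block is self-dual or its product is, as far as its prime decomposition is concerned, a Jacobi
  sum of degree `m` with exponents `s` (`HasExponents`), and `s` has at most `n' - d` elements if the block
  has `n'` elements;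
* `p` is 1 modulo `m`.

The theorem. Let `Covered m n` hold: `n ≤ 7`, FOR EVERY `m`; or `n ≤ 13` and `m` is not divisible by 6; or
`n ≤ 17` and `m` is not divisible by 6, 58, 87; or `n ≤ 27`, `m` is not divisible by 6 and has no prime
factor `r` congruent to 1 modulo 4 with `29 ≤ r < 2 n + 3`; or `n ≤ 33` and `m` is prime to 6; or all odd
prime factors of `m` are larger than `2 n + 5`; or `m` is odd and the squares of its prime factors are
larger than `4 n + 9`. Then all Tate classes in at most `d + n + 2` variables are generated by bilinear
ones (which are classes of divisors on `A × A` by the theorem of Tate) and by products of determinants of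
blocks for which the union of the exponents is empty or, after multiplication by some `l` (from degree `m`
to degree `l m`), belongs to the family generated by the standard characters, the characters of Fermat
surfaces, the products of curve characters and the modular characters.

*Application.* Let `X → Y` be a Galois cover of curves over a finite field of characteristic `p`, with group
`H`, whose ramification indices divide `p - 1`, and let `m` be their least common multiple; suppose that `H`
has no quaternionic irreducible representations, and let `A = J(X)` and `h` be the genus of `Y`. The blocks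
are the sets of the eigenvalues on `H^1(Y, ρ)`, for the irreducible representations `ρ` of `H` (over an
extension of the ground field). If `ρ` is real the block is self-dual. If `ρ` is not real then it has
`(2 h - 2) dim ρ + |s|` elements, where `s` is the multiset of the nonzero exponents of `ρ` at the branch
points, and its product is the determinant of Frobenius on `H^1(Y, ρ)`; by the product formula of Laumon
(Deligne for rank one, and Brauer induction) it is a Jacobi sum of degree `m` with exponents `s`, up to roots
of unity and powers of `q`. So we can take `d = 2 h - 2`. The determinant of `H^1(Y, ρ)` is isomorphic, by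
algebraic correspondences, to the piece of the cohomology of a Fermat variety of degree `m` with the
exponents `s` (symmetric powers of `Y` over the generalized Jacobian). As `p` is 1 modulo `m`, the Tate
characters of degree `m` are the Hodge characters; the lines of the generated ones are algebraic in
characteristic zero (`MP_e12fcd_ag.FermatLengthBound`), and these cycles specialise, since `p` does not
divide `m`. **So all Tate classes of codimension at most `h + 3` on all powers of `J(X)`, over all finite
extensions, are algebraic, for every `m`, and all those of codimension at most `h + 6` if `m` is not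
divisible by 6**, provided that the Galois group of the eigenvalues is as large as possible. (In
codimension smaller than `h - 1` they are combinations of products of divisor classes; the determinants
are the first exotic classes.) When `h` is large with respect to `H`, for instance `h ≥ 4` if `H` is
abelian, the monodromy of the family of all covers is big (Landesman, Litt, Sawin), and by the sieve of
Chavdarov and Kowalski the Galois group is as large as possible for almost all members. These geometric
statements are not formalised here.

`MP_0f183b_ag.GaloisCovers` treats all codimensions, for special `m` (for instance `m ≤ 86`) and arbitrary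
`p`. The parts of the proof: `Pool/Agent/N198/GT`; the Hodge characters with few entries: `Pool/Agent/LB`, by
helper992, helper997, helper994 and others. `MP_9d7ff6_ag.GaloisCovers` contains the analogous result for
(absolute) Hodge classes.

Definitions: `Pool.Agent.N198.GT.Defs`; `Generated`: `Pool.Agent.H916R2.Defs`; `FourBase`,
`ModularCharacter`: `Pool.Agent.N992.FourDefs`, `Pool.Agent.N992.Defs`.
-/

namespace Pool.Agent.Results.MP_ee618e_ag.SplitRamification

open Module Pool.Agent.N198.GT

/-- The covered pairs of a degree `m` and a dimension `n`. -/
def Covered (m n : ℕ) : Prop :=
  n ≤ 7 ∨ (n ≤ 13 ∧ ¬ 6 ∣ m) ∨ (n ≤ 17 ∧ ¬ 6 ∣ m ∧ ¬ 58 ∣ m ∧ ¬ 87 ∣ m) ∨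
  (n ≤ 27 ∧ ¬ 6 ∣ m ∧
    ∀ r : ℕ, r.Prime → r ∣ m → r % 4 = 1 → r = 5 ∨ r = 13 ∨ r = 17 ∨ 2 * n + 3 ≤ r) ∨
  (n ≤ 33 ∧ m % 2 = 1 ∧ ¬ 3 ∣ m) ∨
  (∀ r : ℕ, r.Prime → r ≠ 2 → r ∣ m → 2 * n + 5 < r) ∨
  (m % 2 = 1 ∧ ∀ r : ℕ, r.Prime → r ∣ m → 4 * n + 9 < r ^ 2)

lemma covered10 {m n : ℕ} (h : Covered m n) : Pool.Agent.LB.Covered10 m n := by
  rcases h with h | h | ⟨h, h6, h58, h87⟩ | h | ⟨h, h1, h2⟩ | h | h
  · exact Or.inl h
  · exact Or.inr (Or.inl h)
  · exact Pool.Agent.LB.covered10_17 h6 h58 h87 h
  · exact Or.inr (Or.inr (Or.inl h))
  · exact Pool.Agent.LB.covered10_six h1 h2 h
  · exact Or.inr (Or.inr (Or.inr (Or.inl h)))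
  · exact Or.inr (Or.inr (Or.inr (Or.inr (Or.inl h))))

/-- The multiset is empty or becomes, after multiplication by some `l` (from degree `m` to degree
`l m`), a member of the family generated by the standard characters, the characters of Fermat surfaces,
the products of curve characters and the modular characters. -/
def GeneratedOrEmpty (m : ℕ) [NeZero m] (s : Multiset (ZMod m)) : Prop :=
  s = 0 ∨ ∃ l : ℕ, ∃ _ : NeZero (l * m),
    Pool.Agent.H916R2.Generated (l * m) (Pool.Agent.N992.FourBase (l * m))
      (s.map fun b => ((l * b.val : ℕ) : ZMod (l * m)))

/-- **The Tate classes of small codimension on the powers of an abelian variety with large Galois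
group and determinants which are Jacobi sums with few exponents.** -/
theorem result {p a m n d : ℕ} [hp : Fact p.Prime] (ha : 0 < a) [NeZero m]
    (hpm : (p : ZMod m) = 1) (hc : Covered m n) (ν : ℂ ≃+* PadicAlgCl p)
    {V : Type} [AddCommGroup V] [Module ℂ V] [FiniteDimensional ℂ V]
    (F : End ℂ V) (hF : ⨆ μ, F.eigenspace μ = ⊤) (B : Blocks (p ^ a)) (hB : B.Large)
    (hlam : ∀ μ, F.HasEigenvalue μ → ∃ x, B.lam x = μ)
    (hexp : ∀ i, B.dualBlock i = i ∨ ∃ s, B.HasExponents p m ν i s ∧
      Multiset.card s + d ≤ Fintype.card (B.pos i))
    {κ : Type} [Finite κ] (hκ : Nat.card κ ≤ d + n + 2)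
    (φ : MultilinearMap ℂ (fun _ : κ => V) ℂ) (hφ : IsTateForm F (p ^ a) κ φ) :
    TateRing ν F B (GeneratedOrEmpty m) κ φ := by
  have h1 := tate_memE (m := m) ν F (Nat.one_lt_pow ha.ne' hp.out.one_lt) hB
    (E := fun i s => Multiset.card s + d ≤ Fintype.card (B.pos i)) hexp hF hlam φ hφ
  obtain ⟨l, hl, hgen⟩ := Pool.Agent.LB.lengthBound10 m n (covered10 hc)
  refine h1.bound (Or.inl rfl) (N := Nat.card κ) (fun s hs hs2 => ?_) inferInstance le_rfl
  by_cases h0 : s = 0
  · exact Or.inl h0
  · exact Or.inr ⟨l, hl, hgen s (isHodge_of_isTate hpm hs) h0 (by omega)⟩

end Pool.Agent.Results.MP_ee618e_ag.SplitRamification
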