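import Pool.Agent.N90.SX.FF

/-!
# The Tate conjecture for products of ordinary abelian varieties over finite fields: exotic classes
# appear on subexponential powers

Let `A` be an absolutely simple ordinary abelian variety of dimension `g` over a finite field. If all
Tate classes on one power `A ^ N`, with `N ≥ (2 g) ^ e`, `e ≥ √(g (log₂ g + 5))`, are generated by
divisors, then this holds for all powers of `A`, so that the Tate conjecture is true for them. (There
are `A` for which it holds for `A ^ r` for all `r < 3 · 2 ^ (√g - 6) / √g`, but not for all `r`:
MP_950c68_ag, LateExoticPowers. So the order of the first power with an exotic class is, in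
general, `exp (√g)` up to powers of `log g` in the exponent.) There is a similar result for products.
-/

set_option autoImplicit false

namespace Pool.Agent.Results.MP_ee618e_ag.SubexponentialPower

open NumberField Module Pool.Agent.N90.TD

/-- **Subexponential powers suffice.** Let `A i` be `k` pairwise non-isogenous absolutely simple
ordinary abelian varieties over the field with `p ^ a` elements, given by `(E i, π i)`, and let `g`
be the dimension of their product. Let `N ≥ (2 g) ^ e`, where `e ^ 2 ≥ k g (⌊log₂ g⌋ + 5)` or
`e ^ 3 ≥ 2 g ^ 2 (⌊log₂ g⌋ + 5)`. If some product of the `A i`, in which each `A i` occurs at least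
`N` times, has no exotic Tate classes with coefficients in some field `K` of characteristic zero,
then no product of powers of the `A i` has exotic Tate classes, with coefficients in any field `K'`
of characteristic zero. -/
theorem result {p a : ℕ} [Fact p.Prime] {ι : Type} [Fintype ι] [Nonempty ι] {E : ι → Type}
    [∀ i, Field (E i)] [∀ i, NumberField (E i)] [∀ i, IsCMField (E i)] {π : ∀ i, E i}
    (hπ : IsOrdinaryFamily p a E π) {g e N : ℕ} (hg : ∑ i, finrank ℚ (E i) = 2 * g)
    (he : Fintype.card ι * g * (Nat.log 2 g + 5) ≤ e ^ 2 ∨
      2 * g ^ 2 * (Nat.log 2 g + 5) ≤ e ^ 3) (hN : (2 * g) ^ e ≤ N)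
    (K : Type) [Field K] [CharZero K] {J : Type} [Fintype J] (t : J → ι)
    (ht : ∀ i, ∃ f : Fin N → J, Function.Injective f ∧ ∀ k, t (f k) = i)
    (h : TateGenerated (frob K π t) (p ^ a)) (K' : Type) [Field K'] [CharZero K']
    {J' : Type} [Fintype J'] (t' : J' → ι) : TateGenerated (frob K' π t') (p ^ a) :=
  Pool.Agent.N90.SX.upper' hπ hg he hN K t ht h K' t'

end Pool.Agent.Results.MP_ee618e_ag.SubexponentialPower
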